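import Mathlib
import Pool.Agent.Q265.KN.Fin

set_option autoImplicit false

/-!
# MP_ddfcce_an: Kolmogorov numbers of Schatten embeddings into quasi-Banach classes

Q1 is answered positively: for `0 < q ≤ 1`, `q ≤ p ≤ ∞` there is `c = c(p, q) > 0` with
`d_n(S_p^N → S_q^N) ≥ c max {1, (N² - n + 1) / N}^{1/q - 1/p}` for all `1 ≤ n ≤ N²`.
-/

namespace Pool.Agent.Results.MP_ddfcce_an.KolmogorovLowerBound

open Module
open scoped ENNReal

/-- The `j`-th largest singular value (counted from `0`) of an `N × N` matrix. -/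
noncomputable def sv {𝕜 : Type} [RCLike 𝕜] {N : ℕ} (A : Matrix (Fin N) (Fin N) 𝕜) (j : ℕ) : ℝ :=
  (Matrix.toEuclideanLin A).singularValues j

/-- The Schatten (quasi-)norm `‖A‖_{S_p} = (∑_j s_j(A)^p)^{1/p}` of an `N × N` matrix; for `p = ∞`
the largest singular value of `A`, that is the operator norm (`schatten_top` below). -/
noncomputable def schatten {𝕜 : Type} [RCLike 𝕜] {N : ℕ} (p : ℝ≥0∞)
    (A : Matrix (Fin N) (Fin N) 𝕜) : ℝ :=
  if p = ∞ then sv A 0 else (∑ j : Fin N, sv A j ^ p.toReal) ^ (1 / p.toReal)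

/-- The distance of `A` from the subspace `L` in the Schatten `q` (quasi-)norm. -/
noncomputable def distTo {𝕜 : Type} [RCLike 𝕜] {N : ℕ} (q : ℝ≥0∞)
    (A : Matrix (Fin N) (Fin N) 𝕜) (L : Submodule 𝕜 (Matrix (Fin N) (Fin N) 𝕜)) : ℝ≥0∞ :=
  ⨅ (B : Matrix (Fin N) (Fin N) 𝕜) (_ : B ∈ L), ENNReal.ofReal (schatten q (A - B))

/-- The Kolmogorov number `d_n(S_p^N → S_q^N)`: the infimum over the subspaces `L` of dimension
less than `n` of the supremum over `‖A‖_{S_p} ≤ 1` of the distance of `A` from `L` in `S_q^N`. -/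
noncomputable def kolmogorov (𝕜 : Type) [RCLike 𝕜] (p q : ℝ≥0∞) (N n : ℕ) : ℝ≥0∞ :=
  ⨅ (L : Submodule 𝕜 (Matrix (Fin N) (Fin N) 𝕜)) (_ : finrank 𝕜 L < n),
    ⨆ (A : Matrix (Fin N) (Fin N) 𝕜) (_ : schatten p A ≤ 1), distTo q A L

theorem schatten_top {𝕜 : Type} [RCLike 𝕜] {N : ℕ} (A : Matrix (Fin N) (Fin N) 𝕜) :
    schatten ∞ A = ‖LinearMap.toContinuousLinearMap (Matrix.toEuclideanLin A)‖ := by
  unfold schatten sv
  rw [if_pos rfl]
  refine le_antisymm ?_ ?_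
  · exact Q265.KN.sv_zero_le _ _ (norm_nonneg _)
      (fun x => (LinearMap.toContinuousLinearMap (Matrix.toEuclideanLin A)).le_opNorm x) 0
  · exact ContinuousLinearMap.opNorm_le_bound _ (LinearMap.singularValues_nonneg _ _)
      (fun x => Q265.KN.norm_le_sv_zero (Matrix.toEuclideanLin A) x)

theorem schatten_eq {𝕜 : Type} [RCLike 𝕜] {N : ℕ} (p : ℝ≥0∞) (A : Matrix (Fin N) (Fin N) 𝕜) :
    schatten p A = Q265.KN.schL p (Matrix.toEuclideanLin A) := by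
  by_cases h : p = ∞
  · subst h
    rw [schatten_top, Q265.KN.schL, if_pos rfl]
  · rw [schatten, Q265.KN.schL, if_neg h, if_neg h]
    rfl

/-- For `0 < q ≤ 1` and `q ≤ p ≤ ∞` there is `c > 0` such that, over `ℝ` and over `ℂ`, for all
`N ≥ 1` and `1 ≤ n ≤ N²`, `d_n(S_p^N → S_q^N) ≥ c max {1, (N² - n + 1) / N}^{1/q - 1/p}`. -/
theorem result (p q : ℝ≥0∞) (hq : 0 < q) (hq1 : q ≤ 1) (hqp : q ≤ p) :
    ∃ c : ℝ, 0 < c ∧ ∀ (𝕜 : Type) [RCLike 𝕜] (N n : ℕ), 1 ≤ N → 1 ≤ n → n ≤ N ^ 2 →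
      ENNReal.ofReal
        (c * (max 1 (((N : ℝ) ^ 2 - n + 1) / N)) ^ (1 / q.toReal - 1 / p.toReal)) ≤
      kolmogorov 𝕜 p q N n := by
  refine ⟨Q265.KN.cst q.toReal, Q265.KN.cst_pos _, fun 𝕜 _ N n hN hn1 hn => ?_⟩
  unfold kolmogorov
  refine le_iInf₂ fun L hL => ?_
  by_contra hcon
  rw [not_le] at hcon
  obtain ⟨δ, hδ0, hδ1, hδ2⟩ := ENNReal.lt_iff_exists_real_btwn.1 hcon
  have hδ : 0 < δ := by
    rcases eq_or_lt_of_le hδ0 with h | h
    · rw [← h, ENNReal.ofReal_zero] at hδ1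
      exact absurd hδ1 not_lt_zero
    · exact h
  have hlt : δ < Q265.KN.cst q.toReal *
      (max 1 (((N : ℝ) ^ 2 - n + 1) / N)) ^ (1 / q.toReal - 1 / p.toReal) :=
    (ENNReal.ofReal_lt_ofReal_iff_of_nonneg hδ0).1 hδ2
  refine absurd (Q265.KN.main_bound p q hq hq1 hqp n hN hn1 hn
    (L.map (Matrix.toEuclideanLin (𝕜 := 𝕜) (m := Fin N) (n := Fin N)).toLinearMap) ?_ δ hδ ?_)
    (not_le.2 hlt)
  · rw [LinearEquiv.finrank_map_eq]; exact hL
  · intro T hT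
    obtain ⟨A, rfl⟩ := (Matrix.toEuclideanLin (𝕜 := 𝕜) (m := Fin N) (n := Fin N)).surjective T
    rw [← schatten_eq] at hT
    have h1 : distTo q A L < ENNReal.ofReal δ :=
      lt_of_le_of_lt (le_iSup₂ (f := fun (A : Matrix (Fin N) (Fin N) 𝕜) (_ : schatten p A ≤ 1) =>
        distTo q A L) A hT) hδ1
    unfold distTo at h1
    rw [iInf_lt_iff] at h1
    obtain ⟨B, h1⟩ := h1
    rw [iInf_lt_iff] at h1
    obtain ⟨hB, h1⟩ := h1
    refine ⟨Matrix.toEuclideanLin B, ⟨B, hB, rfl⟩, ?_⟩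
    have h2 := (ENNReal.ofReal_lt_ofReal_iff hδ).1 h1
    rw [schatten_eq, map_sub] at h2
    exact h2.le

end Pool.Agent.Results.MP_ddfcce_an.KolmogorovLowerBound
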